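import Pool.Agent.Y272.TY.Stm

set_option autoImplicit false

/-!
# Typical parameters of the Multibrot sets: negative moments
-/

open Complex Filter Topology Metric Set MeasureTheory

namespace Pool.Agent.Y665.TY

open Pool.Agent.H712R2 Pool.Agent.H713R2 Pool.Agent.W677.Mar Pool.Agent.Y272.TY

theorem norm_BB {d : ℕ} {β : ℂ → ℂ} {L : ℕ → ℂ → ℂ} (hL : IsLog d β L) (n : ℕ) {x : ℂ}
    (hx : x ∈ ball (0 : ℂ) 1) : ‖BB d β n x‖ = Real.exp (L n x).re := by
  rw [← hL.exp n x hx, Complex.norm_exp]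

theorem norm_F {d : ℕ} {β : ℂ → ℂ} {L : ℕ → ℂ → ℂ} (hL : IsLog d β L) (n : ℕ) (s : ℝ) {x : ℂ}
    (hx : x ∈ ball (0 : ℂ) 1) :
    ‖Complex.exp (-(s : ℂ) * L n x)‖ ^ 2 = ‖BB d β n x‖ ^ (-(2 * s)) := by
  rw [norm_BB hL n hx, Complex.norm_exp, ← Real.exp_mul, ← Real.exp_nat_mul]
  congr 1
  have : (-(s : ℂ) * L n x).re = -s * (L n x).re := by
    rw [← Complex.ofReal_neg, Complex.re_ofReal_mul]
  rw [this]
  push_cast
  ring

/-- the coefficients of small order vanish -/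
theorem tc_F {d : ℕ} (hd : 2 ≤ d) {β : ℂ → ℂ} {L : ℕ → ℂ → ℂ} (hL : IsLog d β L) (n : ℕ) (s : ℝ)
    (k : ℕ) (hk : k + 1 < d ^ n) : tc (fun x => Complex.exp (-(s : ℂ) * L n x)) (k + 1) = 0 := by
  set F : ℂ → ℂ := fun x => Complex.exp (-(s : ℂ) * L n x) with hF
  have hLd : DifferentiableOn ℂ (L n) (ball 0 1) := hL.diff n
  have hFd : DifferentiableOn ℂ F (ball 0 1) := (hLd.const_mul (-(s : ℂ))).cexp
  have hL'd : DifferentiableOn ℂ (deriv (L n)) (ball 0 1) := hLd.deriv isOpen_ball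
  have hF'd : DifferentiableOn ℂ (deriv F) (ball 0 1) := hFd.deriv isOpen_ball
  have hder : ∀ x ∈ ball (0 : ℂ) 1, deriv F x = -(s : ℂ) * (deriv (L n) x * F x) := by
    intro x hx
    have h1 : HasDerivAt (L n) (deriv (L n) x) x :=
      (hLd.differentiableAt (isOpen_ball.mem_nhds hx)).hasDerivAt
    have h2 := (h1.const_mul (-(s : ℂ))).cexp
    rw [h2.deriv]
    show Complex.exp (-(s : ℂ) * L n x) * (-(s : ℂ) * deriv (L n) x) = _
    ring
  have h1 : (fun k => -(s : ℂ) * tc (fun x => deriv (L n) x * F x) k) = tc (deriv F) := by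
    apply tc_unique (r := 1) one_pos hF'd
    filter_upwards [ball_mem_nhds (0 : ℂ) one_pos] with x hx
    rw [hder x hx]
    have h2 := (hasSum_tc (hL'd.mul hFd) hx).mul_left (-(s : ℂ))
    refine (h2.congr_fun fun k => ?_)
    show -(s : ℂ) * tc (fun x => deriv (L n) x * F x) k * x ^ k =
      -(s : ℂ) * (tc (fun x => deriv (L n) x * F x) k * x ^ k)
    ring
  have h3 : tc (deriv F) k = 0 := by
    rw [← h1]
    show -(s : ℂ) * tc (fun x => deriv (L n) x * F x) k = 0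
    rw [tc_mul one_pos hL'd hFd k]
    rw [Finset.sum_eq_zero, mul_zero]
    intro p hp
    have hp1 : p.1 + p.2 = k := Finset.HasAntidiagonal.mem_antidiagonal.mp hp
    have hlt : p.1 + 1 < d ^ (n + 1) - 1 := by
      have h4 : 2 * d ^ n ≤ d ^ (n + 1) := by
        rw [pow_succ, mul_comm]; exact Nat.mul_le_mul_left _ hd
      omega
    rw [tc_deriv, hL.van n _ hlt]
    ring
  rw [tc_deriv] at h3
  have h4 : ((k : ℂ) + 1) ≠ 0 := by exact_mod_cast Nat.succ_ne_zero k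
  exact (mul_eq_zero.mp h3).resolve_left h4

theorem summ (q : ℝ) (h0 : 0 ≤ q) (h1 : q < 1) : Summable fun m : ℕ => ((m : ℝ) + 2) * q ^ m := by
  have e1 : Summable fun m : ℕ => (m : ℝ) * q ^ m := by
    have := summable_pow_mul_geometric_of_norm_lt_one (R := ℝ) 1 (r := q)
      (by rw [Real.norm_eq_abs, abs_of_nonneg h0]; exact h1)
    simpa using this
  have e2 : Summable fun m : ℕ => 2 * q ^ m := (summable_geometric_of_lt_one h0 h1).mul_left 2
  refine (e1.add e2).congr fun m => ?_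
  ring

theorem t (hC : St_Coef) : St_Neg := by
  intro d hd
  obtain ⟨C, hC0, hC1⟩ := hC d hd
  have hd1 : (1 : ℝ) < d := by exact_mod_cast (by omega : 1 < d)
  have hd0 : (0 : ℝ) < d := by linarith
  have hD : (d : ℝ) ≤ DD d := by
    unfold DD
    have : (1 : ℝ) ≤ 42 ^ (d - 1) := one_le_pow₀ (by norm_num)
    nlinarith
  have hD0 : 0 < DD d := by linarith
  have hlogd : 0 < Real.log d := Real.log_pos hd1
  have hlogD : Real.log d ≤ Real.log (DD d) := Real.log_le_log hd0 hD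
  have hlogD0 : 0 < Real.log (DD d) := by linarith
  set s : ℝ := Real.log d / (4 * Real.log (DD d)) with hs
  have hs0 : 0 < s := by positivity
  have hs1 : s ≤ 1 / 4 := by
    rw [hs, div_le_iff₀ (by positivity)]
    linarith
  have hpow : ∀ m : ℕ, DD d ^ (2 * s * ((m : ℝ) + 1)) = Real.sqrt d ^ (m + 1) := by
    intro m
    rw [Real.rpow_def_of_pos hD0, Real.sqrt_eq_rpow, ← Real.rpow_natCast, ← Real.rpow_mul hd0.le,
      Real.rpow_def_of_pos hd0]
    congr 1
    have h1 : Real.log (DD d) * s = Real.log d / 4 := by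
      rw [hs]
      field_simp
    push_cast
    linear_combination 2 * ((m : ℝ) + 1) * h1
  set q : ℝ := (Real.sqrt d)⁻¹ with hq
  have hsd : 1 < Real.sqrt d := by
    rw [show (1 : ℝ) = Real.sqrt 1 by simp]
    exact Real.sqrt_lt_sqrt (by norm_num) hd1
  have hsd0 : 0 < Real.sqrt d := by linarith
  have hq0 : 0 ≤ q := by positivity
  have hq1 : q < 1 := inv_lt_one_of_one_lt₀ hsd
  have hdd : Real.sqrt d * Real.sqrt d = d := Real.mul_self_sqrt hd0.le
  have hb : ∀ m : ℕ, C * ((m : ℝ) + 2) * DD d ^ (2 * s * ((m : ℝ) + 1)) / (d : ℝ) ^ m =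
      C * Real.sqrt d * (((m : ℝ) + 2) * q ^ m) := by
    intro m
    rw [hpow m, hq, inv_pow]
    have h1 : (d : ℝ) ^ m = Real.sqrt d ^ m * Real.sqrt d ^ m := by
      rw [← mul_pow, hdd]
    rw [h1]
    have h2 : Real.sqrt d ^ m ≠ 0 := by positivity
    field_simp
    ring
  have hsum := summ q hq0 hq1
  set S : ℝ := ∑' m : ℕ, ((m : ℝ) + 2) * q ^ m with hS
  have hS0 : 0 ≤ S := tsum_nonneg fun m => by positivity
  have hpart : ∀ M : ℕ, ∑ m ∈ Finset.range M, ((m : ℝ) + 2) * q ^ m ≤ S := fun M =>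
    hsum.sum_le_tsum _ (fun m _ => by positivity)
  set C' : ℝ := C * Real.sqrt d * S with hC'
  have hC'0 : 0 ≤ C' := by positivity
  refine ⟨2 * s, 2 * Real.pi * (1 + C'), by positivity, by linarith, by positivity, ?_⟩
  intro β L hβ hL n ρ hρ0 hρ1
  set F : ℂ → ℂ := fun x => Complex.exp (-(s : ℂ) * L n x) with hF
  have hLd : DifferentiableOn ℂ (L n) (ball 0 1) := hL.diff n
  have hFd : DifferentiableOn ℂ F (ball 0 1) := (hLd.const_mul (-(s : ℂ))).cexp
  have hder : ∀ x ∈ ball (0 : ℂ) 1, ‖deriv F x‖ ^ 2 ≤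
      ‖deriv (L n) x‖ ^ 2 * ‖BB d β n x‖ ^ (-(2 * s)) := by
    intro x hx
    have h1 : HasDerivAt (L n) (deriv (L n) x) x :=
      (hLd.differentiableAt (isOpen_ball.mem_nhds hx)).hasDerivAt
    have h2 : deriv F x = Complex.exp (-(s : ℂ) * L n x) * (-(s : ℂ) * deriv (L n) x) :=
      ((h1.const_mul (-(s : ℂ))).cexp).deriv
    rw [h2, norm_mul, norm_mul, mul_pow, mul_pow, norm_F hL n s hx, norm_neg, Complex.norm_real,
      Real.norm_eq_abs, sq_abs]
    have h3 : 0 ≤ ‖BB d β n x‖ ^ (-(2 * s)) := Real.rpow_nonneg (norm_nonneg _) _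
    have h4 : s ^ 2 ≤ 1 := by nlinarith
    have h5 : 0 ≤ ‖deriv (L n) x‖ ^ 2 := by positivity
    calc ‖BB d β n x‖ ^ (-(2 * s)) * (s ^ 2 * ‖deriv (L n) x‖ ^ 2)
        = s ^ 2 * (‖deriv (L n) x‖ ^ 2 * ‖BB d β n x‖ ^ (-(2 * s))) := by ring
      _ ≤ 1 * (‖deriv (L n) x‖ ^ 2 * ‖BB d β n x‖ ^ (-(2 * s))) :=
          mul_le_mul_of_nonneg_right h4 (by positivity)
      _ = _ := one_mul _
  have hblock : ∀ m : ℕ, ∑ k ∈ Finset.Ico (d ^ (n + m)) (d ^ (n + m + 1)), ‖tc F k‖ ^ 2 ≤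
      C * Real.sqrt d * (((m : ℝ) + 2) * q ^ m) := by
    intro m
    rw [← hb m]
    exact hC1 β L hβ hL n m s F hs0.le (by linarith) hFd hder
  have hpartial : ∀ M : ℕ, ∑ k ∈ Finset.range (d ^ (n + M)), ‖tc F k‖ ^ 2 ≤
      1 + C * Real.sqrt d * ∑ m ∈ Finset.range M, ((m : ℝ) + 2) * q ^ m := by
    intro M
    induction M with
    | zero =>
      rw [Finset.range_zero, Finset.sum_empty, mul_zero, add_zero, add_zero]
      have hpos : 0 < d ^ n := by positivity
      obtain ⟨N, hN⟩ : ∃ N, d ^ n = N + 1 := ⟨d ^ n - 1, by omega⟩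
      rw [hN, Finset.sum_range_succ', Finset.sum_eq_zero, zero_add]
      · have h0 : tc F 0 = 1 := by
          rw [tc_zero, hF]
          show Complex.exp (-(s : ℂ) * L n 0) = 1
          rw [hL.zero n, mul_zero, Complex.exp_zero]
        rw [h0]
        simp
      · intro k hk
        rw [Finset.mem_range] at hk
        have := tc_F hd hL n s k (by omega)
        rw [hF, this]
        simp
    | succ M ih =>
      have hle : d ^ (n + M) ≤ d ^ (n + M + 1) := Nat.pow_le_pow_right (by omega) (by omega)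
      have hsplit : ∑ k ∈ Finset.range (d ^ (n + (M + 1))), ‖tc F k‖ ^ 2 =
          ∑ k ∈ Finset.range (d ^ (n + M)), ‖tc F k‖ ^ 2 +
            ∑ k ∈ Finset.Ico (d ^ (n + M)) (d ^ (n + M + 1)), ‖tc F k‖ ^ 2 := by
        rw [Finset.range_eq_Ico, Finset.range_eq_Ico]
        exact (Finset.sum_Ico_consecutive _ (Nat.zero_le _) hle).symm
      rw [hsplit, Finset.sum_range_succ, mul_add]
      have := hblock M
      linarith
  have hall : ∀ K : ℕ, ∑ k ∈ Finset.range K, ‖tc F k‖ ^ 2 * (ρ ^ 2) ^ k ≤ 1 + C' := by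
    intro K
    have hρ2 : ρ ^ 2 ≤ 1 := by nlinarith
    have hK : K ≤ d ^ (n + K) := by
      have h1 : K < 2 ^ K := Nat.lt_two_pow_self
      have h2 : 2 ^ K ≤ d ^ K := Nat.pow_le_pow_left hd K
      have h3 : d ^ K ≤ d ^ (n + K) := Nat.pow_le_pow_right (by omega) (by omega)
      omega
    calc ∑ k ∈ Finset.range K, ‖tc F k‖ ^ 2 * (ρ ^ 2) ^ k ≤ ∑ k ∈ Finset.range K, ‖tc F k‖ ^ 2 := by
          apply Finset.sum_le_sum
          intro k _
          have : (ρ ^ 2) ^ k ≤ 1 := pow_le_one₀ (sq_nonneg _) hρ2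
          have h0 : 0 ≤ ‖tc F k‖ ^ 2 := by positivity
          nlinarith
      _ ≤ ∑ k ∈ Finset.range (d ^ (n + K)), ‖tc F k‖ ^ 2 := by
          apply Finset.sum_le_sum_of_subset_of_nonneg
          · intro k hk
            rw [Finset.mem_range] at hk ⊢
            omega
          · intro k _ _
            positivity
      _ ≤ 1 + C * Real.sqrt d * ∑ m ∈ Finset.range K, ((m : ℝ) + 2) * q ^ m := hpartial K
      _ ≤ 1 + C' := by
          have := mul_le_mul_of_nonneg_left (hpart K) (by positivity : 0 ≤ C * Real.sqrt d)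
          linarith
  have hms := mean_sq (f := F) (a := tc F) (fun z hz => hasSum_tc hFd hz) hρ0 hρ1
  have hle : (2 * Real.pi)⁻¹ * ∫ θ in (0 : ℝ)..(2 * Real.pi), ‖F (pt ρ θ)‖ ^ 2 ≤ 1 + C' :=
    le_of_tendsto' hms.tendsto_sum_nat hall
  have hint : ∫ θ in (0 : ℝ)..(2 * Real.pi), ‖BB d β n (pt ρ θ)‖ ^ (-(2 * s)) =
      ∫ θ in (0 : ℝ)..(2 * Real.pi), ‖F (pt ρ θ)‖ ^ 2 := by
    apply intervalIntegral.integral_congr
    intro θ _
    have hx : pt ρ θ ∈ ball (0 : ℂ) 1 := by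
      rw [mem_ball_zero_iff, norm_pt ρ θ hρ0]; exact hρ1
    exact (norm_F hL n s hx).symm
  rw [hint]
  rw [inv_mul_le_iff₀ (by positivity)] at hle
  exact hle

end Pool.Agent.Y665.TY
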